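import Pool.Agent.V5helper19.QC.Stm

/-! Project QC (helper19), job H3B. -/

set_option autoImplicit false

open Finset

namespace V5helper72.QC

open V5helper19.QC

theorem lower : ∃ c : ℝ, 0 < c ∧ ∀ x : ℂ, x ≠ 0 → ‖x‖ ≤ 3 → c ≤ ‖(Complex.exp x - 1) / x‖ := by
  have hcont : Continuous (dslope Complex.exp 0) := by
    rw [← continuousOn_univ, continuousOn_dslope Filter.univ_mem]
    exact ⟨Complex.continuous_exp.continuousOn, Complex.differentiable_exp.differentiableAt⟩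
  have hval : ∀ x : ℂ, x ≠ 0 → dslope Complex.exp 0 x = (Complex.exp x - 1) / x := by
    intro x hx
    rw [dslope_of_ne _ hx, slope_def_field, Complex.exp_zero, sub_zero]
  obtain ⟨x0, hx0, hmin⟩ := (isCompact_closedBall (0 : ℂ) 3).exists_isMinOn
    ⟨0, by simp⟩ (hcont.norm.continuousOn)
  have hpos : 0 < ‖dslope Complex.exp 0 x0‖ := by
    rw [norm_pos_iff]
    by_cases h0 : x0 = 0
    · rw [h0, dslope_same, Complex.deriv_exp, Complex.exp_zero]
      exact one_ne_zero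
    · rw [hval x0 h0]
      refine div_ne_zero ?_ h0
      rw [sub_ne_zero]
      intro h1
      rw [Complex.exp_eq_one_iff] at h1
      obtain ⟨n, hn⟩ := h1
      have hn0 : n ≠ 0 := by
        rintro rfl
        apply h0
        rw [hn]; simp
      have hx3 : ‖x0‖ ≤ 3 := by
        rw [Metric.mem_closedBall, dist_zero_right] at hx0
        exact hx0
      have hnorm : ‖x0‖ = |(n : ℝ)| * (2 * Real.pi) := by
        rw [hn, norm_mul, Complex.norm_intCast]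
        congr 1
        rw [norm_mul, Complex.norm_I, mul_one, norm_mul, Complex.norm_real, Real.norm_eq_abs,
          abs_of_pos Real.pi_pos]
        simp
      have hn1 : (1 : ℝ) ≤ |(n : ℝ)| := by
        have := Int.one_le_abs hn0
        exact_mod_cast this
      have hpi := Real.pi_gt_three
      nlinarith
  refine ⟨_, hpos, fun x hx hx3 => ?_⟩
  rw [← hval x hx]
  exact hmin (by rw [Metric.mem_closedBall, dist_zero_right]; exact hx3)

/-- the polynomial in `x` and in the remainder `R` -/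
noncomputable def QQ (p : ℂ × ℂ) : ℂ :=
  (1 / 4 + p.1 / 6 + p.1 ^ 2 / 12 + p.1 ^ 3 / 54) +
    p.2 * (3 * p.1 + p.1 ^ 2 * (2 * (1 + p.1 / 2 + p.1 ^ 2 / 6) + p.1 ^ 3 * p.2) -
      6 * (1 + p.1 / 2 + p.1 ^ 2 / 6) ^ 2 - 6 * (1 + p.1 / 2 + p.1 ^ 2 / 6) * (p.1 ^ 3 * p.2) -
      2 * (p.1 ^ 3 * p.2) ^ 2)

theorem QQ_bound : ∃ C : ℝ, 0 ≤ C ∧ ∀ x R : ℂ, ‖x‖ ≤ 3 → ‖R‖ ≤ Real.exp 3 → ‖QQ (x, R)‖ ≤ C := by
  have hc : Continuous QQ := by unfold QQ; fun_prop
  obtain ⟨C, hC⟩ := ((isCompact_closedBall (0 : ℂ) 3).prod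
    (isCompact_closedBall (0 : ℂ) (Real.exp 3))).exists_bound_of_continuousOn hc.continuousOn
  refine ⟨max C 0, le_max_right _ _, fun x R hx hR => ?_⟩
  refine (hC (x, R) ?_).trans (le_max_left _ _)
  rw [Set.mem_prod, Metric.mem_closedBall, dist_zero_right, Metric.mem_closedBall, dist_zero_right]
  exact ⟨hx, hR⟩

theorem ident (x R A : ℂ) (hA : A = 1 + x / 2 + x ^ 2 / 6 + x ^ 3 * R) :
    2 + 3 * x * A + x ^ 2 * A ^ 2 - 2 * A ^ 3 = x ^ 3 * QQ (x, R) := by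
  rw [hA]
  unfold QQ
  ring

theorem t_H3B : S_H3B := by
  obtain ⟨c, hc, hlow⟩ := lower
  obtain ⟨C1, hC1, hup⟩ := QQ_bound
  refine ⟨C1 / c ^ 3 + 1, by positivity, fun x hx hx3 => ?_⟩
  obtain ⟨A, hA⟩ : ∃ A : ℂ, A = (Complex.exp x - 1) / x := ⟨_, rfl⟩
  have hcA : c ≤ ‖A‖ := by rw [hA]; exact hlow x hx hx3
  have hA0 : A ≠ 0 := by
    rw [← norm_pos_iff]; linarith
  have hE : Complex.exp x = 1 + x * A := by
    rw [hA]; field_simp; ring
  obtain ⟨R, hR⟩ : ∃ R : ℂ, R = (Complex.exp x - (1 + x + x ^ 2 / 2 + x ^ 3 / 6)) / x ^ 4 := ⟨_, rfl⟩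
  have hAR : A = 1 + x / 2 + x ^ 2 / 6 + x ^ 3 * R := by
    rw [hA, hR]; field_simp; ring
  have hRb : ‖R‖ ≤ Real.exp 3 := by
    have h1 := Complex.norm_exp_sub_sum_le_norm_mul_exp x 4
    have h2 : ∑ m ∈ range 4, x ^ m / (m.factorial : ℂ) = 1 + x + x ^ 2 / 2 + x ^ 3 / 6 := by
      simp [Finset.sum_range_succ, Nat.factorial]
    rw [h2] at h1
    have hx4 : 0 < ‖x‖ ^ 4 := by positivity
    rw [hR, norm_div, norm_pow, div_le_iff₀ hx4, mul_comm (Real.exp 3)]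
    exact h1.trans (mul_le_mul_of_nonneg_left (Real.exp_le_exp.mpr hx3) hx4.le)
  have hmain : x ^ 3 * e2 x - 2 = x ^ 3 * QQ (x, R) / A ^ 3 := by
    rw [← ident x R A hAR]
    unfold e2
    rw [hE]
    have : (1 + x * A - 1) = x * A := by ring
    rw [this]
    field_simp
    ring
  rw [hmain, norm_div, norm_mul, norm_pow, norm_pow]
  have hQ := hup x R hx3 hRb
  have hA3 : c ^ 3 ≤ ‖A‖ ^ 3 := pow_le_pow_left₀ hc.le hcA 3
  have hc3 : 0 < c ^ 3 := by positivity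
  calc ‖x‖ ^ 3 * ‖QQ (x, R)‖ / ‖A‖ ^ 3 ≤ ‖x‖ ^ 3 * C1 / c ^ 3 := by
        apply div_le_div₀ (by positivity) (mul_le_mul_of_nonneg_left hQ (by positivity)) hc3 hA3
    _ = (C1 / c ^ 3) * ‖x‖ ^ 3 := by ring
    _ ≤ (C1 / c ^ 3 + 1) * ‖x‖ ^ 3 := by
        apply mul_le_mul_of_nonneg_right _ (by positivity)
        linarith

end V5helper72.QC
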